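import Pool.Agent.Q85.SW.Top

/-!
# A Schwartz-class orthonormal wavelet which is not band-limited

There is an orthonormal wavelet (dyadic dilations, integer translations) in the Schwartz class whose
Fourier transform has no compact support.

Proof.  Low pass filter `m = cos θ`, where `θ` is Meyer's phase plus `κ (x) - κ (x + 1/2)`, `κ ≥ 0` a
smooth function of period one, flat at `0`, with `{κ ≠ 0} = ∪_{j ≥ 0} 2^{-j} (0.09, 0.12)` modulo `1`.  If
`κ (ε) ≠ 0` then the orbit of `1/2 + ε` under doubling reaches the interval `(0.36, 0.48)`, where `m = 0`, so that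
`h (x) = ∏_{j ≥ 1} m (x / 2^j)` is a Schwartz function; but `h (2^n (1/2 + 0.1 / 2^n)) ≠ 0` for all `n ≥ 1`.  The
wavelet has the Fourier transform `e^{π i x} m (x/2 + 1/2) h (x/2)`; Parseval's identity follows from the
refinement equation, and its norm is `1`.
-/

set_option autoImplicit false

open MeasureTheory Filter Topology
open scoped SchwartzMap FourierTransform ContDiff

noncomputable section

namespace Pool.Agent.Results.MP_27eeb4_an.NotBandLimited

/-- `ψ` is an orthonormal wavelet: the functions `ψ_{j,k} (x) = 2^{j/2} ψ (2^j x - k)`, `j, k ∈ ℤ`, are an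
orthonormal (Hilbert) basis of `L²(ℝ)`. -/
def IsOrthonormalWavelet (ψ : ℝ → ℂ) : Prop :=
  ∃ b : HilbertBasis (ℤ × ℤ) ℂ (Lp ℂ 2 (volume : Measure ℝ)), ∀ j k : ℤ,
    (b (j, k) : ℝ → ℂ) =ᵐ[volume] fun x => (((2 : ℝ) ^ ((j : ℝ) / 2) : ℝ) : ℂ) * ψ ((2 : ℝ) ^ j * x - k)

/-- the Schwartz class: `ψ` is smooth and all derivatives decay faster than any power. -/
def SchwartzClass (ψ : ℝ → ℂ) : Prop :=
  ContDiff ℝ ∞ ψ ∧ ∀ r N : ℕ, ∃ C : ℝ, ∀ x : ℝ, |x| ^ N * ‖iteratedDeriv r ψ x‖ ≤ C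

/-- the Fourier transform `∫ ψ (x) e^{-2 π i x ξ} dx` -/
def fourier (ψ : ℝ → ℂ) (ξ : ℝ) : ℂ := ∫ x : ℝ, Complex.exp (-2 * Real.pi * Complex.I * x * ξ) * ψ x

open Pool.Agent.Q85.SW

theorem result : ∃ ψ : ℝ → ℂ, IsOrthonormalWavelet ψ ∧ SchwartzClass ψ ∧ ¬ HasCompactSupport (fourier ψ) := by
  obtain ⟨ψ, hb, hs⟩ := Pool.Agent.Q85.SW.Top.goal
  refine ⟨ψ, hb, ⟨ψ.smooth', fun r N => ?_⟩, ?_⟩
  · obtain ⟨C, hC⟩ := ψ.decay' N r
    refine ⟨C, fun x => ?_⟩
    have := hC x
    rw [norm_iteratedFDeriv_eq_norm_iteratedDeriv] at this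
    exact this
  · have e : fourier (ψ : ℝ → ℂ) = 𝓕 (ψ : ℝ → ℂ) := by
      funext ξ
      rw [Real.fourier_eq']
      unfold fourier
      refine integral_congr_ae (Eventually.of_forall fun x => ?_)
      simp only [smul_eq_mul]
      congr 2
      simp
      ring
    rw [e]
    exact hs

end Pool.Agent.Results.MP_27eeb4_an.NotBandLimited
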